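import Mathlib

set_option autoImplicit false

/-!
`A(4,2)` is not the open simplex: every vector with positive entries whose first and third entries exceed
`1/3` fails.
-/

namespace Pool.Agent.Results.MP_cac92d_co.FourFanCounterexample

open MeasureTheory Real

/-- A `k`-fan: a centre and `k` rays. The ray with index `i` (mod `k`) has direction angle `angle i`; the
indexing by all integers is the periodic extension, one turn being `k` steps. -/
structure Fan (k : ℕ) where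
  /-- the common endpoint of the rays -/
  center : ℝ × ℝ
  /-- the direction angles of the rays, in counterclockwise order -/
  angle : ℤ → ℝ
  strictMono : StrictMono angle
  period : ∀ i, angle (i + k) = angle i + 2 * π

/-- The closed sector swept counterclockwise from ray `i` to ray `i + 1`. -/
def Fan.sector {k : ℕ} (F : Fan k) (i : ℤ) : Set (ℝ × ℝ) :=
  {p | ∃ r φ : ℝ, 0 ≤ r ∧ F.angle i ≤ φ ∧ φ ≤ F.angle (i + 1) ∧
    p = (F.center.1 + r * cos φ, F.center.2 + r * sin φ)}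

/-- The set `A(k,m)` of the problem: vectors `α` such that any `m` absolutely continuous probability
measures in the plane have a common `α`-partition by a `k`-fan. -/
def A (k m : ℕ) : Set (Fin k → ℝ) :=
  {α | ∀ μ : Fin m → Measure (ℝ × ℝ), (∀ j, IsProbabilityMeasure (μ j)) →
    (∀ j, μ j ≪ volume) →
    ∃ F : Fan k, ∀ (j : Fin m) (i : Fin k), (μ j).real (F.sector ((i : ℕ) : ℤ)) = α i}

/-- The cone from `c` over `K`. -/
def cone (c : ℝ × ℝ) (K : Set (ℝ × ℝ)) : Set (ℝ × ℝ) :=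
  {p | ∃ s : ℝ, 0 ≤ s ∧ ∃ q ∈ K, p = c + s • (q - c)}

theorem comb_mem_cone {c : ℝ × ℝ} {K : Set (ℝ × ℝ)} (hK : Convex ℝ K) {q q' : ℝ × ℝ}
    (hq : q ∈ K) (hq' : q' ∈ K) {a b : ℝ} (ha : 0 ≤ a) (hb : 0 ≤ b) :
    c + (a • (q - c) + b • (q' - c)) ∈ cone c K := by
  rcases (add_nonneg ha hb).eq_or_lt with h | h
  · have ha0 : a = 0 := by linarith
    have hb0 : b = 0 := by linarith
    exact ⟨0, le_rfl, q, hq, by simp [ha0, hb0]⟩
  · refine ⟨a + b, h.le, (a / (a + b)) • q + (b / (a + b)) • q', ?_, ?_⟩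
    · exact hK hq hq' (by positivity) (by positivity) (by field_simp)
    · ext
      · simp only [Prod.fst_add, Prod.smul_fst, Prod.fst_sub, smul_eq_mul]
        field_simp
        ring
      · simp only [Prod.snd_add, Prod.smul_snd, Prod.snd_sub, smul_eq_mul]
        field_simp
        ring

theorem exists_comb {φ₁ φ₂ ψ : ℝ} (h1 : φ₁ ≤ ψ) (h2 : ψ ≤ φ₂) (h3 : 0 < φ₂ - φ₁)
    (h4 : φ₂ - φ₁ < π) :
    ∃ a b : ℝ, 0 ≤ a ∧ 0 ≤ b ∧ cos ψ = a * cos φ₁ + b * cos φ₂ ∧
      sin ψ = a * sin φ₁ + b * sin φ₂ := by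
  have hs : 0 < sin (φ₂ - φ₁) := sin_pos_of_pos_of_lt_pi h3 h4
  have ha : 0 ≤ sin (φ₂ - ψ) := sin_nonneg_of_nonneg_of_le_pi (by linarith) (by linarith)
  have hb : 0 ≤ sin (ψ - φ₁) := sin_nonneg_of_nonneg_of_le_pi (by linarith) (by linarith)
  refine ⟨sin (φ₂ - ψ) / sin (φ₂ - φ₁), sin (ψ - φ₁) / sin (φ₂ - φ₁), by positivity,
    by positivity, ?_, ?_⟩
  · have : cos ψ * sin (φ₂ - φ₁) = sin (φ₂ - ψ) * cos φ₁ + sin (ψ - φ₁) * cos φ₂ := by
      rw [sin_sub, sin_sub, sin_sub]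
      ring
    field_simp
    linarith
  · have : sin ψ * sin (φ₂ - φ₁) = sin (φ₂ - ψ) * sin φ₁ + sin (ψ - φ₁) * sin φ₂ := by
      rw [sin_sub, sin_sub, sin_sub]
      have e1 : sin ψ * (sin φ₂ * cos φ₁ - cos φ₂ * sin φ₁) =
        (sin φ₂ * cos ψ - cos φ₂ * sin ψ) * sin φ₁ + (sin ψ * cos φ₁ - cos ψ * sin φ₁) * sin φ₂ := by
        ring
      exact e1
    field_simp
    linarith

theorem arc_in_cone {c : ℝ × ℝ} {K : Set (ℝ × ℝ)} (hK : Convex ℝ K) {φ₁ φ₂ ψ r ρ₁ ρ₂ : ℝ}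
    (h1 : φ₁ ≤ ψ) (h2 : ψ ≤ φ₂) (h3 : 0 < φ₂ - φ₁) (h4 : φ₂ - φ₁ < π) (hr : 0 ≤ r)
    (hρ₁ : 0 < ρ₁) (hρ₂ : 0 < ρ₂)
    (hq1 : (c.1 + ρ₁ * cos φ₁, c.2 + ρ₁ * sin φ₁) ∈ K)
    (hq2 : (c.1 + ρ₂ * cos φ₂, c.2 + ρ₂ * sin φ₂) ∈ K) :
    (c.1 + r * cos ψ, c.2 + r * sin ψ) ∈ cone c K := by
  obtain ⟨a, b, ha, hb, hc, hs⟩ := exists_comb h1 h2 h3 h4
  have := comb_mem_cone (c := c) hK hq1 hq2 (a := r * a / ρ₁) (b := r * b / ρ₂)
    (by positivity) (by positivity)
  convert this using 1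
  ext
  · simp only [Prod.fst_add, Prod.smul_fst, Prod.fst_sub, smul_eq_mul, hc]
    field_simp
    ring
  · simp only [Prod.snd_add, Prod.smul_snd, Prod.snd_sub, smul_eq_mul, hs]
    field_simp
    ring

/-- Key lemma: a convex set missing the centre of a `4`-fan and meeting two opposite sectors has one of
the other two sectors in its cone. -/
theorem key (F : Fan 4) (i : ℤ) {K : Set (ℝ × ℝ)} (hK : Convex ℝ K) (hc : F.center ∉ K)
    (h1 : (K ∩ F.sector i).Nonempty) (h2 : (K ∩ F.sector (i + 2)).Nonempty) :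
    F.sector (i + 1) ⊆ cone F.center K ∨ F.sector (i + 3) ⊆ cone F.center K := by
  obtain ⟨q, hqK, ρ₁, φ₁, hρ₁, hφ₁, hφ₁', hq⟩ := h1
  obtain ⟨q', hqK', ρ₂, φ₂, hρ₂, hφ₂, hφ₂', hq'⟩ := h2
  have hρ₁' : 0 < ρ₁ := by
    rcases hρ₁.eq_or_lt with h | h
    · exfalso; apply hc; rw [hq, ← h] at hqK; simpa using hqK
    · exact h
  have hρ₂' : 0 < ρ₂ := by
    rcases hρ₂.eq_or_lt with h | h
    · exfalso; apply hc; rw [hq', ← h] at hqK'; simpa using hqK'
    · exact h
  have hper : F.angle (i + 4) = F.angle i + 2 * π := by exact_mod_cast F.period i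
  have m1 : F.angle (i + 1) < F.angle (i + 2) := F.strictMono (by omega)
  have m2 : F.angle (i + 3) < F.angle (i + 4) := F.strictMono (by omega)
  have e1 : i + 2 + 1 = i + 3 := by ring
  rw [e1] at hφ₂'
  rw [hq] at hqK
  rw [hq'] at hqK'
  rcases lt_trichotomy (φ₂ - φ₁) π with h | h | h
  · left
    rintro p ⟨r, ψ, hr, hψ, hψ', rfl⟩
    have e2 : i + 1 + 1 = i + 2 := by ring
    rw [e2] at hψ'
    exact arc_in_cone hK (by linarith) (by linarith) (by linarith) h hr hρ₁' hρ₂' hqK hqK'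
  · exfalso
    apply hc
    have hcos : cos φ₂ = -cos φ₁ := by
      have : φ₂ = φ₁ + π := by linarith
      rw [this, cos_add_pi]
    have hsin : sin φ₂ = -sin φ₁ := by
      have : φ₂ = φ₁ + π := by linarith
      rw [this, sin_add_pi]
    rw [hcos, hsin] at hqK'
    have := hK hqK hqK' (a := ρ₂ / (ρ₁ + ρ₂)) (b := ρ₁ / (ρ₁ + ρ₂)) (by positivity) (by positivity)
      (by field_simp; ring)
    convert this using 1
    ext
    · simp only [Prod.fst_add, Prod.smul_fst, smul_eq_mul]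
      field_simp
      ring
    · simp only [Prod.snd_add, Prod.smul_snd, smul_eq_mul]
      field_simp
      ring
  · right
    rintro p ⟨r, ψ, hr, hψ, hψ', rfl⟩
    have e2 : i + 3 + 1 = i + 4 := by ring
    rw [e2] at hψ'
    apply arc_in_cone hK (φ₁ := φ₂) (φ₂ := φ₁ + 2 * π) (ρ₁ := ρ₂) (ρ₂ := ρ₁) (by linarith)
      (by linarith) (by linarith) (by linarith) hr hρ₂' hρ₁' hqK'
    rw [cos_add_two_pi, sin_add_two_pi]
    exact hqK

/-- The axis-parallel square of side `2` centred at `(a, b)`. -/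
def sq (a b : ℝ) : Set (ℝ × ℝ) := Set.Icc (a - 1) (a + 1) ×ˢ Set.Icc (b - 1) (b + 1)

theorem convex_sq (a b : ℝ) : Convex ℝ (sq a b) := (convex_Icc _ _).prod (convex_Icc _ _)

theorem measurableSet_sq (a b : ℝ) : MeasurableSet (sq a b) :=
  measurableSet_Icc.prod measurableSet_Icc

theorem volume_sq (a b : ℝ) : volume (sq a b) = 4 := by
  unfold sq
  rw [Measure.volume_eq_prod, Measure.prod_prod, Real.volume_Icc, Real.volume_Icc,
    ← ENNReal.ofReal_mul (by linarith)]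
  have : (a + 1 - (a - 1)) * (b + 1 - (b - 1)) = 4 := by ring
  rw [this]
  norm_num

theorem mem_sq {a b : ℝ} {p : ℝ × ℝ} :
    p ∈ sq a b ↔ (a - 1 ≤ p.1 ∧ p.1 ≤ a + 1) ∧ (b - 1 ≤ p.2 ∧ p.2 ≤ b + 1) := Iff.rfl

/-- Uniform measure on the square at the origin. -/
noncomputable def muD : Measure (ℝ × ℝ) := (4 : ENNReal)⁻¹ • volume.restrict (sq 0 0)

/-- Uniform measure on three far away squares. -/
noncomputable def muT (L : ℝ) : Measure (ℝ × ℝ) :=
  (12 : ENNReal)⁻¹ • (volume.restrict (sq L (-L)) + volume.restrict (sq L 0) +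
    volume.restrict (sq L L))

theorem muD_apply (B : Set (ℝ × ℝ)) : muD B = 4⁻¹ * volume (B ∩ sq 0 0) := by
  unfold muD
  rw [Measure.smul_apply, Measure.restrict_apply' (measurableSet_sq _ _), smul_eq_mul]

theorem muT_apply (L : ℝ) (B : Set (ℝ × ℝ)) :
    muT L B = 12⁻¹ * (volume (B ∩ sq L (-L)) + volume (B ∩ sq L 0) + volume (B ∩ sq L L)) := by
  unfold muT
  rw [Measure.smul_apply, Measure.add_apply, Measure.add_apply,
    Measure.restrict_apply' (measurableSet_sq _ _), Measure.restrict_apply' (measurableSet_sq _ _),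
    Measure.restrict_apply' (measurableSet_sq _ _), smul_eq_mul]

theorem four_inv_mul : (4 : ENNReal)⁻¹ * 4 = 1 :=
  ENNReal.inv_mul_cancel (by norm_num) (by norm_num)

theorem muD_prob : IsProbabilityMeasure muD := by
  constructor
  rw [muD_apply, Set.univ_inter, volume_sq, four_inv_mul]

theorem muT_prob (L : ℝ) : IsProbabilityMeasure (muT L) := by
  constructor
  rw [muT_apply, Set.univ_inter, Set.univ_inter, Set.univ_inter, volume_sq, volume_sq, volume_sq]
  have : (4 + 4 + 4 : ENNReal) = 12 := by norm_num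
  rw [this]
  exact ENNReal.inv_mul_cancel (by norm_num) (by norm_num)

theorem muD_ac : muD ≪ volume := by
  intro s hs
  rw [muD_apply]
  have : volume (s ∩ sq 0 0) = 0 := measure_mono_null Set.inter_subset_left hs
  rw [this, mul_zero]

theorem muT_ac (L : ℝ) : muT L ≪ volume := by
  intro s hs
  rw [muT_apply]
  have h1 : volume (s ∩ sq L (-L)) = 0 := measure_mono_null Set.inter_subset_left hs
  have h2 : volume (s ∩ sq L 0) = 0 := measure_mono_null Set.inter_subset_left hs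
  have h3 : volume (s ∩ sq L L) = 0 := measure_mono_null Set.inter_subset_left hs
  rw [h1, h2, h3]
  simp

theorem vol_le (B : Set (ℝ × ℝ)) (a b : ℝ) : volume (B ∩ sq a b) ≤ 4 := by
  rw [← volume_sq a b]
  exact measure_mono Set.inter_subset_right

/-- A set of `muT`-measure more than `1/3` meets at least two of the squares. -/
theorem two_of_three (L : ℝ) (B : Set (ℝ × ℝ)) (h : 3⁻¹ < muT L B) :
    ((B ∩ sq L (-L)).Nonempty ∧ (B ∩ sq L 0).Nonempty) ∨
    ((B ∩ sq L (-L)).Nonempty ∧ (B ∩ sq L L).Nonempty) ∨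
    ((B ∩ sq L 0).Nonempty ∧ (B ∩ sq L L).Nonempty) := by
  have h12 : (12 : ENNReal)⁻¹ * 4 = 3⁻¹ := by
    have : (12 : ENNReal) = 3 * 4 := by norm_num
    rw [this, ENNReal.mul_inv (by norm_num) (by norm_num), mul_assoc, four_inv_mul, mul_one]
  rw [muT_apply] at h
  have hle : ∀ a b c : ENNReal, (a = 0 ∨ b = 0) → (a = 0 ∨ c = 0) → (b = 0 ∨ c = 0) →
      a ≤ 4 → b ≤ 4 → c ≤ 4 → a + b + c ≤ 4 := by
    intro a b c h1 h2 h3 ha hb hc
    rcases h1 with h1 | h1
    · rcases h3 with h3 | h3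
      · simpa [h1, h3] using hc
      · simpa [h1, h3] using hb
    · rcases h2 with h2 | h2
      · simpa [h1, h2] using hc
      · simpa [h1, h2] using ha
  by_contra hcon
  push Not at hcon
  obtain ⟨c1, c2, c3⟩ := hcon
  have key2 : ∀ S T : Set (ℝ × ℝ), (S.Nonempty → ¬ T.Nonempty) →
      (volume S = 0 ∨ volume T = 0) := by
    intro S T hST
    by_cases hS : S.Nonempty
    · right
      rw [Set.not_nonempty_iff_eq_empty.1 (hST hS), measure_empty]
    · left
      rw [Set.not_nonempty_iff_eq_empty.1 hS, measure_empty]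
  have := hle _ _ _ (key2 (B ∩ sq L (-L)) (B ∩ sq L 0) (fun hh => by simpa [Set.not_nonempty_iff_eq_empty] using c1 hh))
    (key2 (B ∩ sq L (-L)) (B ∩ sq L L) (fun hh => by simpa [Set.not_nonempty_iff_eq_empty] using c2 hh))
    (key2 (B ∩ sq L 0) (B ∩ sq L L) (fun hh => by simpa [Set.not_nonempty_iff_eq_empty] using c3 hh))
    (vol_le _ _ _) (vol_le _ _ _) (vol_le _ _ _)
  have h2 : (12 : ENNReal)⁻¹ * (volume (B ∩ sq L (-L)) + volume (B ∩ sq L 0) + volume (B ∩ sq L L))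
      ≤ 12⁻¹ * 4 := by gcongr
  rw [h12] at h2
  exact absurd h (not_lt.2 h2)

/-- If the cone from `c` over the square at the origin meets the square at `(L, κ L)`, then `c` is
close to the line of slope `κ` through the origin. -/
theorem near_line {L κ : ℝ} (hL : 1 ≤ L) (hκ : |κ| ≤ 1) {c : ℝ × ℝ}
    (h : (cone c (sq 0 0) ∩ sq L (κ * L)).Nonempty) :
    L * |c.2 - κ * c.1| ≤ 2 * (|c.1| + |c.2|) + 2 * (L + 1) := by
  obtain ⟨p, ⟨s, hs, d, hd, hp⟩, hpT⟩ := h
  rw [mem_sq] at hd hpT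
  obtain ⟨⟨d1, d2⟩, ⟨d3, d4⟩⟩ := hd
  obtain ⟨⟨p1, p2⟩, ⟨p3, p4⟩⟩ := hpT
  have e1 : p.1 = c.1 + s * (d.1 - c.1) := by rw [hp]; simp
  have e2 : p.2 = c.2 + s * (d.2 - c.2) := by rw [hp]; simp
  have e3 : c.1 * p.2 - c.2 * p.1 = p.2 * d.1 - p.1 * d.2 + c.1 * d.2 - c.2 * d.1 := by
    rw [e1, e2]; ring
  have e4 : L * (c.2 - κ * c.1) = (p.2 - κ * L) * c.1 - (p.1 - L) * c.2
      - (p.2 * d.1 - p.1 * d.2 + c.1 * d.2 - c.2 * d.1) := by
    rw [← e3]; ring
  have hκ' := abs_le.1 hκ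
  have hp1 : |p.1 - L| ≤ 1 := abs_le.2 ⟨by linarith, by linarith⟩
  have hp2 : |p.2 - κ * L| ≤ 1 := abs_le.2 ⟨by linarith, by linarith⟩
  have hd1 : |d.1| ≤ 1 := abs_le.2 ⟨by linarith, by linarith⟩
  have hd2 : |d.2| ≤ 1 := abs_le.2 ⟨by linarith, by linarith⟩
  have hP1 : |p.1| ≤ L + 1 := abs_le.2 ⟨by linarith, by linarith⟩
  have hP2 : |p.2| ≤ L + 1 := by
    apply abs_le.2
    constructor <;> nlinarith [hκ'.1, hκ'.2]
  have hmul : ∀ x y X Y : ℝ, |x| ≤ X → |y| ≤ Y → |x * y| ≤ X * Y := by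
    intro x y X Y hx hy
    rw [abs_mul]
    exact mul_le_mul hx hy (abs_nonneg _) (le_trans (abs_nonneg _) hx)
  have b1 := hmul _ _ _ _ hp2 (le_refl |c.1|)
  have b2 := hmul _ _ _ _ hp1 (le_refl |c.2|)
  have b3 := hmul _ _ _ _ hP2 hd1
  have b4 := hmul _ _ _ _ hP1 hd2
  have b5 := hmul _ _ _ _ (le_refl |c.1|) hd2
  have b6 := hmul _ _ _ _ (le_refl |c.2|) hd1
  have e5 : L * |c.2 - κ * c.1| = |L * (c.2 - κ * c.1)| := by
    rw [abs_mul, abs_of_nonneg (by linarith : (0 : ℝ) ≤ L)]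
  rw [e5, e4]
  rw [abs_le] at b1 b2 b3 b4 b5 b6 ⊢
  constructor <;> linarith [b1.1, b1.2, b2.1, b2.2, b3.1, b3.2, b4.1, b4.2, b5.1, b5.2, b6.1, b6.2]

/-- Closeness to two of the three lines bounds `c`. -/
theorem bound_of_two {L : ℝ} (hL : 1000 ≤ L) {κ κ' : ℝ} (hκκ : 1 ≤ |κ - κ'|) (hκ : |κ| ≤ 1)
    {x y : ℝ} (h1 : L * |y - κ * x| ≤ 2 * (|x| + |y|) + 2 * (L + 1))
    (h2 : L * |y - κ' * x| ≤ 2 * (|x| + |y|) + 2 * (L + 1)) : |x| ≤ 12 ∧ |y| ≤ 12 := by
  have a1 : |x| ≤ |y - κ * x| + |y - κ' * x| := by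
    have h3 : |(κ - κ') * x| ≤ |y - κ * x| + |y - κ' * x| := by
      have : (κ - κ') * x = (y - κ' * x) - (y - κ * x) := by ring
      rw [this]
      have := abs_sub (y - κ' * x) (y - κ * x)
      linarith
    rw [abs_mul] at h3
    nlinarith [abs_nonneg x]
  have a2 : |y| ≤ |y - κ * x| + |x| := by
    have h3 : |y| ≤ |y - κ * x| + |κ * x| := by
      have : y = (y - κ * x) + κ * x := by ring
      calc |y| = |(y - κ * x) + κ * x| := by rw [← this]
        _ ≤ _ := abs_add_le _ _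
    rw [abs_mul] at h3
    nlinarith [abs_nonneg x]
  have a3 : L * |x| ≤ 4 * (|x| + |y|) + 4 * (L + 1) := by
    have := mul_le_mul_of_nonneg_left a1 (by linarith : (0 : ℝ) ≤ L)
    rw [mul_add] at this
    linarith
  have a4 : L * |y| ≤ 6 * (|x| + |y|) + 6 * (L + 1) := by
    have := mul_le_mul_of_nonneg_left a2 (by linarith : (0 : ℝ) ≤ L)
    rw [mul_add] at this
    linarith
  have a5 : L * (|x| + |y|) ≤ 10 * (|x| + |y|) + 10 * (L + 1) := by linarith
  have a6 : |x| + |y| ≤ 12 := by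
    by_contra hcon
    push Not at hcon
    nlinarith
  constructor <;> linarith [abs_nonneg x, abs_nonneg y]

/-- The cone from a point near the origin over a far away square is thin. -/
theorem thin {L κ ε : ℝ} (hε : 0 < ε) (hL : 1000 + 1000 / ε ≤ L) (hκ : |κ| ≤ 1) {c : ℝ × ℝ}
    (hc1 : |c.1| ≤ 12) (hc2 : |c.2| ≤ 12) :
    muD (cone c (sq L (κ * L))) < ENNReal.ofReal ε := by
  have hLpos : 0 < 1000 / ε := by positivity
  have hL13 : 0 < L - 13 := by linarith
  set w : ℝ := 400 / (L - 13) with hw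
  have hwpos : 0 < w := by positivity
  have hwε : w < ε := by
    rw [hw, div_lt_iff₀ hL13]
    have : 1000 ≤ ε * (L - 1000) := by
      have h1 : 1000 / ε ≤ L - 1000 := by linarith
      rw [div_le_iff₀ hε] at h1
      linarith
    nlinarith
  have hsub : cone c (sq L (κ * L)) ∩ sq 0 0 ⊆
      regionBetween (fun x => c.2 + κ * (x - c.1) - w) (fun x => c.2 + κ * (x - c.1) + w)
        (Set.Icc (-1) 1) := by
    rintro z ⟨⟨s, hs, p, hp, hz⟩, hzD⟩
    rw [mem_sq] at hp hzD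
    obtain ⟨⟨p1, p2⟩, ⟨p3, p4⟩⟩ := hp
    obtain ⟨⟨z1, z2⟩, ⟨z3, z4⟩⟩ := hzD
    have e1 : z.1 = c.1 + s * (p.1 - c.1) := by rw [hz]; simp
    have e2 : z.2 = c.2 + s * (p.2 - c.2) := by rw [hz]; simp
    rw [abs_le] at hc1 hc2 hκ
    have hs1 : s * (L - 13) ≤ 13 := by
      have : s * (L - 13) ≤ s * (p.1 - c.1) := mul_le_mul_of_nonneg_left (by linarith) hs
      linarith
    have hs2 : s ≤ 13 / (L - 13) := by
      rw [le_div_iff₀ hL13]; exact hs1
    have hq : |(p.2 - κ * p.1) - (c.2 - κ * c.1)| ≤ 26 := by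
      have k1 : |κ * c.1| ≤ 12 := by
        rw [abs_mul]
        have h1 : |κ| ≤ 1 := abs_le.2 hκ
        have h2 : |c.1| ≤ 12 := abs_le.2 hc1
        nlinarith [abs_nonneg κ, abs_nonneg c.1]
      have k2 : |κ * (p.1 - L)| ≤ 1 := by
        rw [abs_mul]
        have h1 : |κ| ≤ 1 := abs_le.2 hκ
        have h2 : |p.1 - L| ≤ 1 := abs_le.2 ⟨by linarith, by linarith⟩
        nlinarith [abs_nonneg κ, abs_nonneg (p.1 - L)]
      rw [abs_le] at k1 k2 ⊢
      constructor <;> linarith [k1.1, k1.2, k2.1, k2.2]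
    have e3 : z.2 - (c.2 + κ * (z.1 - c.1)) = s * ((p.2 - κ * p.1) - (c.2 - κ * c.1)) := by
      rw [e1, e2]; ring
    have e4 : |z.2 - (c.2 + κ * (z.1 - c.1))| < w := by
      rw [e3, abs_mul, abs_of_nonneg hs]
      calc s * |(p.2 - κ * p.1) - (c.2 - κ * c.1)| ≤ 13 / (L - 13) * 26 := by
            apply mul_le_mul hs2 hq (abs_nonneg _) (by positivity)
        _ < w := by
            rw [hw, div_mul_eq_mul_div, div_lt_div_iff_of_pos_right hL13]
            norm_num
    rw [abs_lt] at e4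
    refine ⟨⟨by linarith, by linarith⟩, ⟨?_, ?_⟩⟩
    · show c.2 + κ * (z.1 - c.1) - w < z.2
      linarith
    · show z.2 < c.2 + κ * (z.1 - c.1) + w
      linarith
  have hvol : volume (regionBetween (fun x => c.2 + κ * (x - c.1) - w)
      (fun x => c.2 + κ * (x - c.1) + w) (Set.Icc (-1 : ℝ) 1)) = ENNReal.ofReal (4 * w) := by
    have m1 : AEMeasurable (fun x : ℝ => c.2 + κ * (x - c.1) - w)
        (volume.restrict (Set.Icc (-1 : ℝ) 1)) := by fun_prop
    have m2 : AEMeasurable (fun x : ℝ => c.2 + κ * (x - c.1) + w)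
        (volume.restrict (Set.Icc (-1 : ℝ) 1)) := by fun_prop
    rw [Measure.volume_eq_prod, volume_regionBetween_eq_lintegral m1 m2 measurableSet_Icc]
    have : ∀ x : ℝ, (((fun x => c.2 + κ * (x - c.1) + w) - fun x => c.2 + κ * (x - c.1) - w) x)
        = 2 * w := by
      intro x
      simp only [Pi.sub_apply]
      ring
    simp only [this]
    rw [setLIntegral_const, Real.volume_Icc, ← ENNReal.ofReal_mul (by positivity)]
    congr 1
    ring
  rw [muD_apply]
  have h1 : volume (cone c (sq L (κ * L)) ∩ sq 0 0) ≤ ENNReal.ofReal (4 * w) :=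
    hvol ▸ measure_mono hsub
  calc (4 : ENNReal)⁻¹ * volume (cone c (sq L (κ * L)) ∩ sq 0 0)
      ≤ 4⁻¹ * ENNReal.ofReal (4 * w) := by gcongr
    _ = ENNReal.ofReal w := by
        rw [ENNReal.ofReal_mul (by norm_num), ← mul_assoc]
        have : ENNReal.ofReal 4 = 4 := by norm_num
        rw [this, four_inv_mul, one_mul]
    _ < ENNReal.ofReal ε := (ENNReal.ofReal_lt_ofReal_iff hε).2 hwε

/-- Every vector with positive entries and with first and third entries above `1/3` is outside `A(4,2)`. -/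
theorem not_mem (α : Fin 4 → ℝ) (hpos : ∀ i, 0 < α i) (h0 : 1 / 3 < α 0) (h2 : 1 / 3 < α 2) :
    α ∉ A 4 2 := by
  intro hA
  set ε := min (α 1) (α 3) with hε
  have hεpos : 0 < ε := lt_min (hpos 1) (hpos 3)
  set L := 1000 + 1000 / ε with hL
  have hLpos : 0 < 1000 / ε := by positivity
  have hL1000 : 1000 ≤ L := by linarith
  obtain ⟨F, hF⟩ := hA ![muT L, muD]
    (by
      intro j
      fin_cases j
      · exact muT_prob L
      · exact muD_prob)
    (by
      intro j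
      fin_cases j
      · exact muT_ac L
      · exact muD_ac)
  have := muT_prob L
  have := muD_prob
  -- convert
  have hT : ∀ i : Fin 4, muT L (F.sector ((i : ℕ) : ℤ)) = ENNReal.ofReal (α i) := by
    intro i
    have := hF 0 i
    simp only [Matrix.cons_val_zero] at this
    rw [← this, measureReal_def, ENNReal.ofReal_toReal (measure_ne_top _ _)]
  have hD : ∀ i : Fin 4, muD (F.sector ((i : ℕ) : ℤ)) = ENNReal.ofReal (α i) := by
    intro i
    have := hF 1 i
    simp only [Matrix.cons_val_one, Matrix.cons_val_zero] at this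
    rw [← this, measureReal_def, ENNReal.ofReal_toReal (measure_ne_top _ _)]
  have hT0 : 3⁻¹ < muT L (F.sector 0) := by
    have := hT 0
    simp only [Fin.val_zero, Nat.cast_zero] at this
    rw [this]
    have e : (3 : ENNReal)⁻¹ = ENNReal.ofReal (1 / 3) := by
      rw [one_div, ENNReal.ofReal_inv_of_pos (by norm_num)]
      norm_num
    rw [e]
    exact (ENNReal.ofReal_lt_ofReal_iff (hpos 0)).2 h0
  have hT2 : 3⁻¹ < muT L (F.sector 2) := by
    have := hT 2
    have e2 : (((2 : Fin 4) : ℕ) : ℤ) = 2 := rfl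
    rw [e2] at this
    rw [this]
    have e : (3 : ENNReal)⁻¹ = ENNReal.ofReal (1 / 3) := by
      rw [one_div, ENNReal.ofReal_inv_of_pos (by norm_num)]
      norm_num
    rw [e]
    exact (ENNReal.ofReal_lt_ofReal_iff (hpos 2)).2 h2
  have hD1 : ENNReal.ofReal ε ≤ muD (F.sector 1) := by
    have := hD 1
    have e2 : (((1 : Fin 4) : ℕ) : ℤ) = 1 := rfl
    rw [e2] at this
    rw [this]
    exact ENNReal.ofReal_le_ofReal (min_le_left _ _)
  have hD3 : ENNReal.ofReal ε ≤ muD (F.sector 3) := by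
    have := hD 3
    have e2 : (((3 : Fin 4) : ℕ) : ℤ) = 3 := rfl
    rw [e2] at this
    rw [this]
    exact ENNReal.ofReal_le_ofReal (min_le_right _ _)
  have hεe : 0 < ENNReal.ofReal ε := ENNReal.ofReal_pos.2 hεpos
  have hnonempty : ∀ B : Set (ℝ × ℝ), 0 < muD B → (sq 0 0 ∩ B).Nonempty := by
    intro B hB
    rw [muD_apply] at hB
    by_contra hcon
    rw [Set.not_nonempty_iff_eq_empty, Set.inter_comm] at hcon
    rw [hcon, measure_empty, mul_zero] at hB
    exact absurd hB (lt_irrefl _)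
  -- period: sector 4 = sector 0
  have hsec4 : F.sector (1 + 3) = F.sector 0 := by
    have hper0 : F.angle 4 = F.angle 0 + 2 * π := by
      have := F.period 0
      simpa using this
    have hper1 : F.angle 5 = F.angle 1 + 2 * π := by
      have := F.period 1
      have e : (1 : ℤ) + ((4 : ℕ) : ℤ) = 5 := by norm_num
      rw [e] at this
      exact this
    have e4 : (1 : ℤ) + 3 = 4 := by norm_num
    rw [e4]
    ext p
    constructor
    · rintro ⟨r, φ, hr, h1, h2, rfl⟩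
      have e5 : (4 : ℤ) + 1 = 5 := by norm_num
      rw [e5] at h2
      refine ⟨r, φ - 2 * π, hr, by linarith, ?_, ?_⟩
      · rw [zero_add]; linarith
      · rw [cos_sub_two_pi, sin_sub_two_pi]
    · rintro ⟨r, φ, hr, h1, h2, rfl⟩
      rw [zero_add] at h2
      have e5 : (4 : ℤ) + 1 = 5 := by norm_num
      refine ⟨r, φ + 2 * π, hr, by linarith, ?_, ?_⟩
      · rw [e5]; linarith
      · rw [cos_add_two_pi, sin_add_two_pi]
  have hκ1 : |(-1 : ℝ)| ≤ 1 := by norm_num
  have hκ0 : |(0 : ℝ)| ≤ 1 := by norm_num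
  have hκ2 : |(1 : ℝ)| ≤ 1 := by norm_num
  have t1 : sq L (-L) = sq L ((-1) * L) := by rw [neg_one_mul]
  have t0 : sq L 0 = sq L (0 * L) := by rw [zero_mul]
  have t2 : sq L L = sq L (1 * L) := by rw [one_mul]
  -- Step 1: the centre is near the origin
  have hcenter : |F.center.1| ≤ 12 ∧ |F.center.2| ≤ 12 := by
    by_cases hcD : F.center ∈ sq 0 0
    · rw [mem_sq] at hcD
      obtain ⟨⟨a1, a2⟩, ⟨a3, a4⟩⟩ := hcD
      exact ⟨abs_le.2 ⟨by linarith, by linarith⟩, abs_le.2 ⟨by linarith, by linarith⟩⟩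
    · have hk := key F 1 (convex_sq 0 0) hcD (hnonempty _ (lt_of_lt_of_le hεe hD1))
        (hnonempty _ (lt_of_lt_of_le hεe hD3))
      have hbig : 3⁻¹ < muT L (cone F.center (sq 0 0)) := by
        rcases hk with hk | hk
        · exact lt_of_lt_of_le hT2 (measure_mono hk)
        · rw [hsec4] at hk
          exact lt_of_lt_of_le hT0 (measure_mono hk)
      rcases two_of_three L _ hbig with ⟨c1, c2⟩ | ⟨c1, c2⟩ | ⟨c1, c2⟩
      · rw [t1] at c1
        rw [t0] at c2
        exact bound_of_two hL1000 (by norm_num) hκ1 (near_line (by linarith) hκ1 c1)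
          (near_line (by linarith) hκ0 c2)
      · rw [t1] at c1
        rw [t2] at c2
        exact bound_of_two hL1000 (by norm_num) hκ1 (near_line (by linarith) hκ1 c1)
          (near_line (by linarith) hκ2 c2)
      · rw [t0] at c1
        rw [t2] at c2
        exact bound_of_two hL1000 (by norm_num) hκ0 (near_line (by linarith) hκ0 c1)
          (near_line (by linarith) hκ2 c2)
  obtain ⟨hc1, hc2⟩ := hcenter
  -- Step 2: some far square meets both sectors 0 and 2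
  have hno : ∀ κ : ℝ, |κ| ≤ 1 → (F.sector 0 ∩ sq L (κ * L)).Nonempty →
      (F.sector 2 ∩ sq L (κ * L)).Nonempty → False := by
    intro κ hκ g0 g2
    have hcT : F.center ∉ sq L (κ * L) := by
      intro hmem
      rw [mem_sq] at hmem
      have := (abs_le.1 hc1).2
      linarith [hmem.1.1]
    have hthin := thin (κ := κ) hεpos (le_of_eq hL.symm) hκ hc1 hc2
    rcases key F 0 (convex_sq L (κ * L)) hcT (by rwa [Set.inter_comm]) (by rwa [Set.inter_comm, zero_add])
      with hk | hk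
    · rw [zero_add] at hk
      exact absurd (lt_of_le_of_lt (le_trans hD1 (measure_mono hk)) hthin) (lt_irrefl _)
    · rw [zero_add] at hk
      exact absurd (lt_of_le_of_lt (le_trans hD3 (measure_mono hk)) hthin) (lt_irrefl _)
  have n1 := hno (-1) hκ1
  have n0 := hno 0 hκ0
  have n2 := hno 1 hκ2
  rw [← t1] at n1
  rw [← t0] at n0
  rw [← t2] at n2
  rcases two_of_three L _ hT0 with ⟨c1, c2⟩ | ⟨c1, c2⟩ | ⟨c1, c2⟩ <;>
  rcases two_of_three L _ hT2 with ⟨d1, d2⟩ | ⟨d1, d2⟩ | ⟨d1, d2⟩ <;>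
  first
    | exact n1 c1 d1
    | exact n2 c2 d2
    | exact n0 c1 d1
    | exact n0 c2 d2
    | exact n0 c2 d1
    | exact n0 c1 d2

/-- `A(4,2)` is not the open simplex; indeed no vector of the open simplex whose first and third
entries exceed `1/3` lies in `A(4,2)`. -/
theorem result :
    (∀ α : Fin 4 → ℝ, (∀ i, 0 < α i) → ∑ i, α i = 1 → 1 / 3 < α 0 → 1 / 3 < α 2 → α ∉ A 4 2) ∧
    A 4 2 ≠ {α : Fin 4 → ℝ | ∑ i, α i = 1 ∧ ∀ i, 0 < α i} := by
  refine ⟨fun α hpos _ h0 h2 => not_mem α hpos h0 h2, ?_⟩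
  intro heq
  have hpos : ∀ i, 0 < (![2 / 5, 1 / 10, 2 / 5, 1 / 10] : Fin 4 → ℝ) i := by
    intro i
    fin_cases i <;> norm_num [Matrix.cons_val_zero, Matrix.cons_val_one]
  have hmem : (![2 / 5, 1 / 10, 2 / 5, 1 / 10] : Fin 4 → ℝ) ∈
      {α : Fin 4 → ℝ | ∑ i, α i = 1 ∧ ∀ i, 0 < α i} := by
    refine ⟨?_, hpos⟩
    rw [Fin.sum_univ_four]
    simp
    norm_num
  rw [← heq] at hmem
  exact not_mem _ hpos (by norm_num) (by simp; norm_num) hmem

end Pool.Agent.Results.MP_cac92d_co.FourFanCounterexample
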